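import Pool.Agent.Helper40.ZU.Stmts
import Pool.Agent.Helper73.TWR.Tool
import Mathlib.MeasureTheory.Function.FactorsThrough

/-!
Sheet ZU (MP_7a8f48_an), row MFA: factors.
-/

set_option linter.unusedSectionVars false

open MeasureTheory Filter Topology Finset
open scoped ComplexConjugate

namespace Pool.Agent.Helper74.ZU

open Pool.Agent.Helper98.TW (SA BF Sys)
open Pool.Agent.Helper40.ZU

section

variable {X Ω : Type} [MeasurableSpace X] [MeasurableSpace Ω] {m : Measure X}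
  [IsProbabilityMeasure m] {ρ : Measure Ω} [IsProbabilityMeasure ρ] {T T' : X → X} {R : Ω → Ω}
  {θ : Ω → X} {f : Ω → ℂ} {g : X → ℂ}

/-- conditional expectations on the factor -/
theorem exists_fac (ρ : Measure Ω) (θ : Ω → X) (f : Ω → ℂ) : ∃ g : X → ℂ, Measurable g ∧
    (fun w => g (θ w)) = ρ[f|MeasurableSpace.comap θ inferInstance] := by
  obtain ⟨h, mh, hh⟩ := (stronglyMeasurable_condExp (m := MeasurableSpace.comap θ inferInstance)
    (f := f) (μ := ρ)).exists_eq_measurable_comp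
  exact ⟨h, mh.measurable, hh.symm⟩

theorem memLp_fac (hθ : Measurable θ) (hm : ρ.map θ = m) (hg : Measurable g)
    (h : MemLp (fun w => g (θ w)) 2 ρ) : MemLp g 2 m := by
  rw [← hm]
  exact (memLp_map_measure_iff hg.aestronglyMeasurable hθ.aemeasurable).2 h

theorem memLp_comp_fac (hθ : Measurable θ) (hm : ρ.map θ = m) (h : MemLp g 2 m) :
    MemLp (fun w => g (θ w)) 2 ρ := by
  have hmp : MeasurePreserving θ ρ m := ⟨hθ, hm⟩
  exact h.comp_measurePreserving hmp

theorem int_fac (hθ : Measurable θ) (hm : ρ.map θ = m) {h : X → ℝ}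
    (hh : AEStronglyMeasurable h m) : ∫ z, h z ∂m = ∫ w, h (θ w) ∂ρ := by
  rw [← hm] at hh ⊢
  exact integral_map hθ.aemeasurable hh

/-- the conditional expectation of the shifted function -/
theorem ce_shift (hT : Measurable T) (hT' : Measurable T')
    (hTT : ∀ᵐ z ∂m, T' (T z) = z) (hR : MeasurePreserving R ρ ρ) (hθ : Measurable θ)
    (hm : ρ.map θ = m) (he : ∀ᵐ w ∂ρ, θ (R w) = T (θ w)) (hf : Integrable f ρ)
    (hg : Measurable g)
    (hfg : (fun w => g (θ w)) =ᵐ[ρ] ρ[f|MeasurableSpace.comap θ inferInstance]) :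
    (fun w => g (T (θ w))) =ᵐ[ρ]
      ρ[fun w => f (R w)|MeasurableSpace.comap θ inferInstance] := by
  have hle : MeasurableSpace.comap θ inferInstance ≤ (inferInstance : MeasurableSpace Ω) :=
    hθ.comap_le
  have hgi : Integrable (fun w => g (θ w)) ρ := (integrable_congr hfg).2 integrable_condExp
  have hgR : Integrable (fun w => g (θ (R w))) ρ := hR.integrable_comp_of_integrable hgi
  have hgT : (fun w => g (θ (R w))) =ᵐ[ρ] fun w => g (T (θ w)) := by
    filter_upwards [he] with w hw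
    rw [hw]
  have hgTi : Integrable (fun w => g (T (θ w))) ρ := (integrable_congr hgT).1 hgR
  have hfR : Integrable (fun w => f (R w)) ρ := hR.integrable_comp_of_integrable hf
  have hTθ : ∀ᵐ w ∂ρ, T' (T (θ w)) = θ w := by
    rw [← hm] at hTT
    exact ae_of_ae_map hθ.aemeasurable hTT
  refine ae_eq_condExp_of_forall_setIntegral_eq hle hfR (fun s _ _ => hgTi.integrableOn)
    ?_ ?_
  · rintro s ⟨A, hA, rfl⟩ -
    have hB : MeasurableSet (θ ⁻¹' (T' ⁻¹' A)) := hθ (hT' hA)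
    have hB' : MeasurableSet[MeasurableSpace.comap θ inferInstance] (θ ⁻¹' (T' ⁻¹' A)) :=
      ⟨T' ⁻¹' A, hT' hA, rfl⟩
    have hs : (θ ⁻¹' A : Set Ω) =ᵐ[ρ] (R ⁻¹' (θ ⁻¹' (T' ⁻¹' A)) : Set Ω) := by
      refine eventuallyEq_set.2 ?_
      filter_upwards [he, hTθ] with w h1 h2
      show θ w ∈ A ↔ T' (θ (R w)) ∈ A
      rw [h1, h2]
    have key : ∀ h : Ω → ℂ, Integrable h ρ →
        ∫ w in θ ⁻¹' A, h (R w) ∂ρ = ∫ w in θ ⁻¹' (T' ⁻¹' A), h w ∂ρ := by
      intro h hh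
      rw [setIntegral_congr_set hs]
      have e1 := setIntegral_map (μ := ρ) (g := R) (f := h) hB
        (by rw [hR.map_eq]; exact hh.aestronglyMeasurable) hR.measurable.aemeasurable
      rw [hR.map_eq] at e1
      exact e1.symm
    calc ∫ w in θ ⁻¹' A, g (T (θ w)) ∂ρ = ∫ w in θ ⁻¹' A, g (θ (R w)) ∂ρ :=
          integral_congr_ae (ae_restrict_of_ae hgT.symm)
      _ = ∫ w in θ ⁻¹' (T' ⁻¹' A), g (θ w) ∂ρ := key _ hgi
      _ = ∫ w in θ ⁻¹' (T' ⁻¹' A), (ρ[f|MeasurableSpace.comap θ inferInstance]) w ∂ρ :=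
          integral_congr_ae (ae_restrict_of_ae hfg)
      _ = ∫ w in θ ⁻¹' (T' ⁻¹' A), f w ∂ρ := setIntegral_condExp hle hf hB'
      _ = ∫ w in θ ⁻¹' A, f (R w) ∂ρ := (key _ hf).symm
  · exact ((hg.comp hT).comp (comap_measurable θ)).aestronglyMeasurable

/-- eigenfunctions -/
theorem ei_fac (hT : MeasurePreserving T m m) (hT' : Measurable T')
    (hTT : ∀ᵐ z ∂m, T' (T z) = z) (hR : MeasurePreserving R ρ ρ) (hθ : Measurable θ)
    (hm : ρ.map θ = m) (he : ∀ᵐ w ∂ρ, θ (R w) = T (θ w)) (hf : Ei ρ R f) (hg : Measurable g)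
    (hfg : (fun w => g (θ w)) =ᵐ[ρ] ρ[f|MeasurableSpace.comap θ inferInstance]) : Ei m T g := by
  obtain ⟨hf2, l, hl, hfl⟩ := hf
  have h2 : MemLp (fun w => g (θ w)) 2 ρ := (memLp_congr_ae hfg).2 (hf2.condExp (by norm_num))
  refine ⟨memLp_fac hθ hm hg h2, l, hl, ?_⟩
  have h1 := ce_shift hT.measurable hT' hTT hR hθ hm he (hf2.integrable (by norm_num)) hg hfg
  have h3 : ρ[fun w => f (R w)|MeasurableSpace.comap θ inferInstance] =ᵐ[ρ]
      ρ[l • f|MeasurableSpace.comap θ inferInstance] := condExp_congr_ae hfl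
  have h4 : ρ[l • f|MeasurableSpace.comap θ inferInstance] =ᵐ[ρ]
      l • ρ[f|MeasurableSpace.comap θ inferInstance] := condExp_smul l f _
  have h5 : ∀ᵐ w ∂ρ, g (T (θ w)) = l * g (θ w) := by
    filter_upwards [h1, h3, h4, hfg] with w a b c d
    rw [a, b, c, d]
    rfl
  rw [← hm]
  have hset : MeasurableSet {z | g (T z) = l * g z} :=
    measurableSet_eq_fun (hg.comp hT.measurable) (hg.const_mul l)
  exact (ae_map_iff hθ.aemeasurable hset).2 h5

/-- the square of the distance -/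
theorem sq_fac (hθ : Measurable θ) (hm : ρ.map θ = m) {f' : Ω → ℂ} {g' : X → ℂ}
    (hf : MemLp f 2 ρ) (hf' : MemLp f' 2 ρ) (hg : Measurable g) (hg' : Measurable g')
    (hfg : (fun w => g (θ w)) =ᵐ[ρ] ρ[f|MeasurableSpace.comap θ inferInstance])
    (hfg' : (fun w => g' (θ w)) =ᵐ[ρ] ρ[f'|MeasurableSpace.comap θ inferInstance]) :
    ∫ z, ‖g z - g' z‖ ^ 2 ∂m ≤ ∫ w, ‖f w - f' w‖ ^ 2 ∂ρ := by
  rw [int_fac hθ hm (h := fun z => ‖g z - g' z‖ ^ 2)
    (((hg.sub hg').norm.pow_const 2).aestronglyMeasurable)]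
  have h1 : ρ[f - f'|MeasurableSpace.comap θ inferInstance] =ᵐ[ρ]
      ρ[f|MeasurableSpace.comap θ inferInstance] - ρ[f'|MeasurableSpace.comap θ inferInstance] :=
    condExp_sub (hf.integrable (by norm_num)) (hf'.integrable (by norm_num)) _
  have h2 : ∫ w, ‖g (θ w) - g' (θ w)‖ ^ 2 ∂ρ =
      ∫ w, ‖(ρ[f - f'|MeasurableSpace.comap θ inferInstance]) w‖ ^ 2 ∂ρ := by
    refine integral_congr_ae ?_
    filter_upwards [h1, hfg, hfg'] with w a b c
    rw [a, b, c]
    rfl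
  rw [h2]
  exact Pool.Agent.Helper73.TWR.ce_sq_le (𝒜 := (MeasurableSpace.comap θ inferInstance :
    MeasurableSpace Ω)) (F := f - f') (hf.sub hf')

/-- random functions -/
theorem rn_fac [StandardBorelSpace X] [StandardBorelSpace Ω] (hMRL : ST_MRL)
    (hT : MeasurePreserving T m m) (hT' : Measurable T')
    (hTT : ∀ᵐ z ∂m, T' (T z) = z) (hR : MeasurePreserving R ρ ρ) (hθ : Measurable θ)
    (hm : ρ.map θ = m) (he : ∀ᵐ w ∂ρ, θ (R w) = T (θ w)) (hf : Rn ρ R f) (hg : Measurable g)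
    (hfg : (fun w => g (θ w)) =ᵐ[ρ] ρ[f|MeasurableSpace.comap θ inferInstance]) : Rn m T g := by
  obtain ⟨hf2, hr⟩ := hf
  have h2 : MemLp (fun w => g (θ w)) 2 ρ := (memLp_congr_ae hfg).2 (hf2.condExp (by norm_num))
  refine ⟨memLp_fac hθ hm hg h2, fun η hη => ?_⟩
  obtain ⟨G, hG, hd, P₀, hS⟩ := hr η hη
  obtain ⟨hGm, B, hB⟩ := hG
  obtain ⟨g₀, hg₀, hg₀e⟩ := exists_fac ρ θ G
  have hB0 : 0 ≤ B := by
    obtain ⟨w⟩ : Nonempty Ω := nonempty_of_isProbabilityMeasure ρ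
    exact (norm_nonneg _).trans (hB w)
  have hGi : Integrable G ρ := Integrable.of_bound hGm.aestronglyMeasurable B
    (Eventually.of_forall hB)
  have hGL : MemLp G 2 ρ := MemLp.of_bound hGm.aestronglyMeasurable B (Eventually.of_forall hB)
  have hbd : ∀ᵐ w ∂ρ, ‖(ρ[G|MeasurableSpace.comap θ inferInstance]) w‖ ≤ B :=
    Pool.Agent.Helper73.TWR.ce_bdd (𝒜 := (MeasurableSpace.comap θ inferInstance :
      MeasurableSpace Ω)) hθ.comap_le hGi (Eventually.of_forall hB)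
  have hset : MeasurableSet {z | ‖g₀ z‖ ≤ B} := measurableSet_le hg₀.norm measurable_const
  set g₁ : X → ℂ := fun z => if ‖g₀ z‖ ≤ B then g₀ z else 0 with hg₁
  have hg₁m : Measurable g₁ := Measurable.ite hset hg₀ measurable_const
  have hg₁B : BF g₁ := by
    refine ⟨hg₁m, B, fun z => ?_⟩
    rw [hg₁]
    show ‖if ‖g₀ z‖ ≤ B then g₀ z else 0‖ ≤ B
    split_ifs with h
    · exact h
    · simpa using hB0
  have hg₁e : (fun w => g₁ (θ w)) =ᵐ[ρ] ρ[G|MeasurableSpace.comap θ inferInstance] := by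
    filter_upwards [hbd] with w hw
    have e : g₀ (θ w) = (ρ[G|MeasurableSpace.comap θ inferInstance]) w := congrFun hg₀e w
    rw [← e] at hw ⊢
    show (if ‖g₀ (θ w)‖ ≤ B then g₀ (θ w) else 0) = g₀ (θ w)
    rw [if_pos hw]
  refine ⟨g₁, hg₁B, (sq_fac hθ hm hf2 hGL hg hg₁m hfg hg₁e).trans hd, P₀, ?_⟩
  intro p q hp hq hpq hPp hPq κ hκ hκi h1 h2
  obtain ⟨κ', a1, a2, a3, a4, a5⟩ := hMRL X Ω m ρ T T' R θ hT hT' hTT hR hθ hm he p q κ hκ hκi
    h1 h2
  rw [a5 G g₁ ⟨hGm, B, hB⟩ hg₁B hg₁e]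
  exact hS p q hp hq hpq hPp hPq κ' a1 a2 a3 a4

end

theorem st_MFA (hMRL : ST_MRL) : ST_MFA := by
  intro X Ω _ _ _ _ m _ ρ _ T T' R θ hT hT' hTT hR hθ hm he hGe F hF ε hε
  have hFθ : MemLp (fun w => F (θ w)) 2 ρ := memLp_comp_fac hθ hm hF
  obtain ⟨n, f, hf, hd⟩ := hGe _ hFθ ε hε
  have hfL : ∀ i, MemLp (f i) 2 ρ := fun i => (hf i).elim (fun h => h.1) (fun h => h.1)
  choose g hg hge using fun i => exists_fac ρ θ (f i)
  have hge' : ∀ i, (fun w => g i (θ w)) =ᵐ[ρ]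
      ρ[f i|MeasurableSpace.comap θ inferInstance] := fun i => (hge i).eventuallyEq
  refine ⟨n, g, fun i => ?_, ?_⟩
  · rcases hf i with h | h
    · exact Or.inl (ei_fac hT hT' hTT hR hθ hm he h (hg i) (hge' i))
    · exact Or.inr (rn_fac hMRL hT hT' hTT hR hθ hm he h (hg i) (hge' i))
  · -- a measurable version of `F`
    obtain ⟨F₀, hF₀, hFF₀⟩ := hF.1
    have hF₀m : Measurable F₀ := hF₀.measurable
    have hθF : (fun w => F (θ w)) =ᵐ[ρ] fun w => F₀ (θ w) := by
      have : ∀ᵐ z ∂(ρ.map θ), F z = F₀ z := by rw [hm]; exact hFF₀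
      exact ae_of_ae_map hθ.aemeasurable this
    have hFi : Integrable (fun w => F (θ w)) ρ := hFθ.integrable (by norm_num)
    have h1 : (fun w => F₀ (θ w)) =ᵐ[ρ]
        ρ[fun w => F (θ w)|MeasurableSpace.comap θ inferInstance] := by
      have ham : AEStronglyMeasurable[MeasurableSpace.comap θ inferInstance]
          (fun w => F (θ w)) ρ := by
        refine ⟨fun w => F₀ (θ w), ?_, hθF⟩
        exact (hF₀m.comp (comap_measurable θ)).stronglyMeasurable
      exact hθF.symm.trans (condExp_of_aestronglyMeasurable' hθ.comap_le ham hFi).symm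
    have hsum : (fun w => ∑ i, g i (θ w)) =ᵐ[ρ]
        ρ[fun w => ∑ i, f i w|MeasurableSpace.comap θ inferInstance] := by
      have e1 := condExp_finsetSum (μ := ρ) (s := Finset.univ) (f := f)
        (m := MeasurableSpace.comap θ inferInstance)
        (fun i _ => (hfL i).integrable (by norm_num))
      have e2 : (∑ i, f i) = fun w => ∑ i, f i w := by
        funext w
        rw [Finset.sum_apply]
      rw [e2] at e1
      filter_upwards [e1] with w hw
      rw [hw, Finset.sum_apply]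
      exact Finset.sum_congr rfl fun i _ => congrFun (hge i) w
    have hgs : Measurable fun z => ∑ i, g i z := Finset.measurable_sum _ fun i _ => hg i
    have hfs : MemLp (fun w => ∑ i, f i w) 2 ρ := memLp_finsetSum _ fun i _ => hfL i
    have h2 := sq_fac hθ hm hFθ hfs hF₀m hgs h1 hsum
    refine le_trans (le_of_eq ?_) (h2.trans hd)
    refine integral_congr_ae ?_
    filter_upwards [hFF₀] with z hz
    rw [hz]

end Pool.Agent.Helper74.ZU
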