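import Pool.Agent.Helper40.ZU.Stmts

/-!
Sheet ZU (MP_7a8f48_an), row VGE: the theorem for one filter.
-/

open MeasureTheory Filter Topology Finset
open scoped ComplexConjugate

namespace Pool.Agent.Helper74.ZU

open Pool.Agent.Helper98.TW (SA BF Sys)
open Pool.Agent.Helper16.MD (MS)
open Pool.Agent.Helper40.ZU

theorem sm_mono {X : Type} [MeasurableSpace X] {m : Measure X} {T : X → X} {G : X → ℂ}
    {η η' : ℝ} (h : Sm m T G η) (hle : η ≤ η') : Sm m T G η' := by
  obtain ⟨P₀, hP⟩ := h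
  exact ⟨P₀, fun p q hp hq hpq h1 h2 κ hκ hi h3 h4 =>
    (hP p q hp hq hpq h1 h2 κ hκ hi h3 h4).trans hle⟩

theorem st_VGE (hVOC : ST_VOC) (hVOE : ST_VOE) (hVOK : ST_VOK) : ST_VGE := by
  intro X _ _ _ _ L T x m hL hGe F hFm hFb hFc
  have hprob : IsProbabilityMeasure m := hL.prob
  obtain ⟨-, hadd, -, hcl, h5, h6⟩ := hVOC X L T x m hL
  have hrn : ∀ f : X → ℂ, Rn m T f → Or L T x m f := by
    intro f hf η hη
    obtain ⟨hf2, hr⟩ := hf
    have hpos : 0 < min ((η / 8) ^ 2) ((η / 2) ^ 2 / 40000) := by positivity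
    obtain ⟨G, hG, hd, hS⟩ := hr _ hpos
    have hGL : MemLp G 2 m := by
      obtain ⟨h1, B, hB⟩ := hG
      exact MemLp.of_bound h1.aestronglyMeasurable B (Eventually.of_forall hB)
    have hOe : Oe L T x m G (η / 2) :=
      hVOK X L T x m hL G (η / 2) hG (by positivity) (sm_mono hS (min_le_right _ _))
    exact h5 f G η hη hf2 hGL hOe (hd.trans (min_le_left _ _))
  have hfi : ∀ f : X → ℂ, Ei m T f ∨ Rn m T f → MemLp f 2 m ∧ Or L T x m f := by
    intro f hf
    rcases hf with h | h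
    · exact ⟨h.1, hVOE X L T x m hL f h⟩
    · exact ⟨h.1, hrn f h⟩
  have hzero : MemLp (fun _ : X => (0 : ℂ)) 2 m ∧ Or L T x m (fun _ => 0) := by
    refine hfi _ (Or.inl ⟨memLp_const 0, 1, by simp, ?_⟩)
    exact Eventually.of_forall fun z => by simp
  have hsum : ∀ (n : ℕ) (f : Fin n → X → ℂ), (∀ i, Ei m T (f i) ∨ Rn m T (f i)) →
      MemLp (fun z => ∑ i, f i z) 2 m ∧ Or L T x m (fun z => ∑ i, f i z) := by
    intro n
    induction n with
    | zero =>
      intro f _
      simpa using hzero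
    | succ n ih =>
      intro f hf
      obtain ⟨a1, a2⟩ := ih (fun i => f i.castSucc) (fun i => hf i.castSucc)
      obtain ⟨b1, b2⟩ := hfi _ (hf (Fin.last n))
      have e : (fun z => ∑ i, f i z) = fun z => (∑ i : Fin n, f i.castSucc z) +
          f (Fin.last n) z := by
        funext z
        exact Fin.sum_univ_castSucc fun i => f i z
      rw [e]
      exact ⟨a1.add b1, hadd _ _ a1 b1 a2 b2⟩
  have hFL : MemLp F 2 m := by
    obtain ⟨B, hB⟩ := hFb
    exact MemLp.of_bound hFm.aestronglyMeasurable B (Eventually.of_forall hB)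
  have hOr : Or L T x m F := by
    refine hcl F hFL fun ε hε => ?_
    obtain ⟨n, f, hf, hd⟩ := hGe F hFL ε hε
    obtain ⟨c1, c2⟩ := hsum n f hf
    exact ⟨_, c1, c2, hd⟩
  exact h6 F hFm hFb hFc hOr

end Pool.Agent.Helper74.ZU
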