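import Pool.Agent.Helper40.ZU.Stmts
import Pool.Agent.Helper61.AZ.KT1
import Pool.Agent.Helper92.ZA.ZKB

/-!
Sheet ZU (MP_7a8f48_an), row VKT: the criterion of Katai along a filter.
-/

open Finset Filter MeasureTheory Topology
open scoped ComplexConjugate

namespace Pool.Agent.Helper74.ZU

open Pool.Agent.Helper16.MD (MS PB Am RW Rich kat_disj kat_pd kat_mem kat_mu kat_Am kat_B kat_sqrt)
open Pool.Agent.Helper16.AZ (kt1_cs)
open Pool.Agent.Helper40.ZU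

/-- one block for one value of `N` -/
theorem block_at (η : ℝ) (i : ℕ) (f : ℕ → ℂ) (N : ℕ) (hη : 0 < η) (hN0 : 1 ≤ N)
    (hN : (∑ s ∈ PB 1 i, 1 / (s : ℝ)) * (η * N / 4) ≤
      ‖∑ s ∈ PB 1 i, MS (fun y => f (s * y)) (N / s)‖) (Γ : ℕ → ℕ → ℝ)
    (hΓ : ∀ s ∈ PB 1 i, ∀ t ∈ PB 1 i, 0 ≤ Γ s t ∧
      ‖∑ y ∈ Icc 1 (min (N / s) (N / t)), f (s * y) * conj (f (t * y))‖ ≤
        Γ s t * (min (N / s) (N / t) : ℕ)) :
    (η / 8) ^ 2 * ((PB 1 i).card : ℝ) ^ 2 ≤ ∑ s ∈ PB 1 i, ∑ t ∈ PB 1 i, Γ s t := by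
  classical
  set B := PB 1 i with hB
  set P0 : ℕ := 2 ^ i with hP0
  have hP01 : 1 ≤ P0 := Nat.one_le_two_pow
  have hP0R : (0 : ℝ) < P0 := by exact_mod_cast hP01
  have hpr : ∀ s ∈ B, P0 ≤ s ∧ s ≤ 2 * P0 ∧ 1 ≤ s := by
    intro s hs
    obtain ⟨a1, a2, a3, a4⟩ := kat_mem hs
    refine ⟨a2.le, ?_, a1.pos⟩
    rw [hP0]
    rw [pow_succ] at a3
    omega
  have hNR : (0 : ℝ) < N := by exact_mod_cast (by omega : 0 < N)
  have hcs := kt1_cs f N P0 B hP01 (fun s hs => (hpr s hs).1)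
  have hterm : ∀ s ∈ B, ∀ t ∈ B, ‖∑ y ∈ Icc 1 (min (N / s) (N / t)),
      f (s * y) * conj (f (t * y))‖ ≤ Γ s t * ((N : ℝ) / P0) := by
    intro s hs t ht
    obtain ⟨s1, s2, s3⟩ := hpr s hs
    refine (hΓ s hs t ht).2.trans ?_
    apply mul_le_mul_of_nonneg_left _ (hΓ s hs t ht).1
    have h1 : (min (N / s) (N / t) : ℕ) ≤ N / P0 :=
      (min_le_left _ _).trans (Nat.div_le_div_left s1 hP01)
    have h2 : ((min (N / s) (N / t) : ℕ) : ℝ) ≤ ((N / P0 : ℕ) : ℝ) := by exact_mod_cast h1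
    exact h2.trans Nat.cast_div_le
  have hsum : ∑ s ∈ B, ∑ t ∈ B, ‖∑ y ∈ Icc 1 (min (N / s) (N / t)),
      f (s * y) * conj (f (t * y))‖ ≤ (∑ s ∈ B, ∑ t ∈ B, Γ s t) * ((N : ℝ) / P0) := by
    rw [Finset.sum_mul]
    apply Finset.sum_le_sum
    intro s hs
    rw [Finset.sum_mul]
    apply Finset.sum_le_sum
    intro t ht
    exact hterm s hs t ht
  have hA : (B.card : ℝ) / (2 * P0) ≤ ∑ s ∈ B, 1 / (s : ℝ) := by
    have : ∑ s ∈ B, (1 : ℝ) / (2 * P0) ≤ ∑ s ∈ B, 1 / (s : ℝ) := by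
      apply Finset.sum_le_sum
      intro s hs
      obtain ⟨s1, s2, s3⟩ := hpr s hs
      apply one_div_le_one_div_of_le
      · exact_mod_cast s3
      · exact_mod_cast s2
    rw [Finset.sum_const, nsmul_eq_mul, mul_one_div] at this
    exact this
  have hlow : (B.card : ℝ) / (2 * P0) * (η * N / 4) ≤
      ‖∑ s ∈ B, MS (fun y => f (s * y)) (N / s)‖ :=
    (mul_le_mul_of_nonneg_right hA (by positivity)).trans hN
  have hsq : ((B.card : ℝ) / (2 * P0) * (η * N / 4)) ^ 2 ≤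
      ((N : ℝ) / P0) * ((∑ s ∈ B, ∑ t ∈ B, Γ s t) * ((N : ℝ) / P0)) := by
    refine (pow_le_pow_left₀ (by positivity) hlow 2).trans (hcs.trans ?_)
    exact mul_le_mul_of_nonneg_left hsum (by positivity)
  have e1 : ((B.card : ℝ) / (2 * P0) * (η * N / 4)) ^ 2 =
      ((N : ℝ) / P0) ^ 2 * ((η / 8) ^ 2 * (B.card : ℝ) ^ 2) := by
    field_simp; ring
  have e2 : ((N : ℝ) / P0) * ((∑ s ∈ B, ∑ t ∈ B, Γ s t) * ((N : ℝ) / P0)) =
      ((N : ℝ) / P0) ^ 2 * (∑ s ∈ B, ∑ t ∈ B, Γ s t) := by ring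
  rw [e1, e2] at hsq
  exact le_of_mul_le_mul_left hsq (by positivity)

/-- the inequality of Turan and Kubilius: one block is large -/
theorem exists_block (hTKA : Pool.Agent.Helper16.MD.ST_TKA) (η : ℝ) (R : Finset ℕ) (hη : 0 < η)
    (hR : ∀ i ∈ R, 24 / η ≤ (2 : ℝ) ^ i) (hA1 : 64 / η ^ 2 ≤ Am 1 R) :
    ∃ N₀ : ℕ, 1 ≤ N₀ ∧ ∀ (f : ℕ → ℂ) (N : ℕ), (∀ n, ‖f n‖ ≤ 1) → N₀ ≤ N →
      η * N ≤ ‖MS f N‖ → ∃ i ∈ R, (∑ s ∈ PB 1 i, 1 / (s : ℝ)) * (η * N / 4) ≤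
      ‖∑ s ∈ PB 1 i, MS (fun y => f (s * y)) (N / s)‖ := by
  classical
  set S := R.biUnion (PB 1) with hS
  have hprime : ∀ p ∈ S, p.Prime := by
    intro p hp
    obtain ⟨i, _, hpi⟩ := Finset.mem_biUnion.1 hp
    exact (kat_mem hpi).1
  obtain ⟨C, hC0, hC⟩ := hTKA S hprime
  rw [kat_Am] at hA1
  set A := ∑ p ∈ S, 1 / (p : ℝ) with hAd
  have hB1 := kat_B η 1 R hη hR
  have hs1 := kat_sqrt hη hA1
  have hAp : 0 < A := lt_of_lt_of_le (by positivity) hA1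
  have hblocks : A = ∑ i ∈ R, ∑ s ∈ PB 1 i, 1 / (s : ℝ) := by
    rw [hAd, hS, Finset.sum_biUnion (kat_pd 1 R)]
  obtain ⟨N0, hN0⟩ := exists_nat_gt ((4 * C / (A * η)) ^ 2)
  refine ⟨N0 + 1, by omega, fun f N hf hN3 hN1 => ?_⟩
  by_contra hcon
  have hN2 : ∀ i ∈ R, ‖∑ s ∈ PB 1 i, MS (fun y => f (s * y)) (N / s)‖ ≤
      (∑ s ∈ PB 1 i, 1 / (s : ℝ)) * (η * N / 4) := by
    intro i hi
    by_contra h
    exact hcon ⟨i, hi, (not_le.1 h).le⟩
  have hNR : (0 : ℝ) < N := by exact_mod_cast (by omega : 0 < N)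
  have hN0N : (N0 : ℝ) ≤ N := by exact_mod_cast (by omega : N0 ≤ N)
  have hsq : 4 * C / (A * η) < Real.sqrt N := by
    apply Real.lt_sqrt_of_sq_lt
    linarith
  have hsqpos : 0 < Real.sqrt N := Real.sqrt_pos.2 hNR
  have hmul : Real.sqrt N * Real.sqrt N = N := Real.mul_self_sqrt hNR.le
  have hCN : C * Real.sqrt N < A * η * N / 4 := by
    rw [div_lt_iff₀ (by positivity)] at hsq
    have : 4 * C * Real.sqrt N < Real.sqrt N * (A * η) * Real.sqrt N :=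
      mul_lt_mul_of_pos_right hsq hsqpos
    nlinarith
  have hTK := hC f N hf
  set X : ℂ := ∑ p ∈ S, MS (fun y => f (p * y)) (N / p) with hX
  have hXsum : X = ∑ i ∈ R, ∑ s ∈ PB 1 i, MS (fun y => f (s * y)) (N / s) := by
    rw [hX, hS, Finset.sum_biUnion (kat_pd 1 R)]
  have hXle : ‖X‖ ≤ A * (η * N / 4) := by
    rw [hXsum, hblocks, Finset.sum_mul]
    exact (norm_sum_le _ _).trans (Finset.sum_le_sum fun i hi => hN2 i hi)
  have hnorm : ‖((A : ℝ) : ℂ) * MS f N‖ = A * ‖MS f N‖ := by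
    rw [norm_mul, Complex.norm_real, Real.norm_of_nonneg hAp.le]
  have htri : A * ‖MS f N‖ ≤ ‖((A : ℝ) : ℂ) * MS f N + X‖ + ‖X‖ := by
    rw [← hnorm]
    have := norm_sub_le (((A : ℝ) : ℂ) * MS f N + X) X
    rwa [add_sub_cancel_right] at this
  have hlowA : A * (η * N) ≤ A * ‖MS f N‖ := mul_le_mul_of_nonneg_left hN1 hAp.le
  have hE : (N : ℝ) * (Real.sqrt A + ∑ p ∈ S, 1 / (p : ℝ) ^ 2) ≤ N * (A * η / 2) := by
    apply mul_le_mul_of_nonneg_left _ hNR.le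
    have h3 : 0 < A * η := by positivity
    have h4 : Real.sqrt A + ∑ p ∈ S, 1 / (p : ℝ) ^ 2 ≤ A * (η / 8) + A * (η / 24) :=
      add_le_add hs1 hB1
    nlinarith
  have hTK2 : ‖((A : ℝ) : ℂ) * MS f N + X‖ ≤ N * (A * η / 2) + C * Real.sqrt N :=
    hTK.trans (by linarith)
  have : 0 < A * η * N := by positivity
  nlinarith

theorem div_max {N s t : ℕ} (hs : 1 ≤ s) (ht : 1 ≤ t) : min (N / s) (N / t) = N / max s t := by
  rcases le_total s t with h | h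
  · rw [max_eq_right h, min_eq_right (Nat.div_le_div_left h hs)]
  · rw [max_eq_left h, min_eq_left (Nat.div_le_div_left h ht)]

theorem st_VKT (hTKA : Pool.Agent.Helper16.MD.ST_TKA) (hw : Pool.Agent.Helper16.MD.ST_WND) :
    ST_VKT := by
  intro η hη hη1 P₀
  obtain ⟨K, hK2, hK⟩ := hw (64 / η ^ 2)
  obtain ⟨I₂, hI₂⟩ := pow_unbounded_of_one_lt (24 / η) (one_lt_two : (1 : ℝ) < 2)
  obtain ⟨I₃, hI₃⟩ := exists_nat_gt (4 * (4096 / η ^ 2))
  obtain ⟨I, hI⟩ : ∃ I : ℕ, I = I₂ + I₃ + P₀ + 4 := ⟨_, rfl⟩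
  refine ⟨2 ^ (K * I + 1), fun L a hL ha h => ?_⟩
  have hmem : ∀ i ∈ RW 1 I K, I ≤ i ∧ i < K * I ∧ 2 ^ i ≤ 4 * i * (PB 1 i).card := by
    intro i hi
    unfold RW at hi
    rw [Finset.mem_filter, Finset.mem_Ico] at hi
    exact ⟨hi.1.1, hi.1.2, hi.2⟩
  have h24 : ∀ i ∈ RW 1 I K, 24 / η ≤ (2 : ℝ) ^ i := by
    intro i hi
    have h1 : I ≤ i := (hmem i hi).1
    exact hI₂.le.trans (pow_le_pow_right₀ one_le_two (by omega))
  have hAm : 64 / η ^ 2 ≤ Am 1 (RW 1 I K) :=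
    hK I 1 (by omega) le_rfl (Nat.one_le_two_pow)
  obtain ⟨N₀, hN₀1, hN₀⟩ := exists_block hTKA η (RW 1 I K) hη h24 hAm
  have hpb : ∀ i ∈ RW 1 I K, ∀ p ∈ PB 1 i, p.Prime ∧ P₀ ≤ p ∧ p ≤ 2 ^ (K * I + 1) := by
    intro i hi p hp
    obtain ⟨hIi, hiK, hrich⟩ := hmem i hi
    unfold PB at hp
    rw [Finset.mem_filter, Finset.mem_Ioc] at hp
    refine ⟨hp.2.1, ?_, ?_⟩
    · have h1 : i < 2 ^ i := Nat.lt_two_pow_self
      omega
    · exact hp.1.2.trans (Nat.pow_le_pow_right (by norm_num) (by omega))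
  -- all pairs at once
  have hall : ∀ᶠ N : ℕ in L, ∀ x ∈ Finset.range (2 ^ (K * I + 1) + 1) ×ˢ
      Finset.range (2 ^ (K * I + 1) + 1), x.1.Prime → x.2.Prime → x.1 ≠ x.2 → P₀ ≤ x.1 →
      P₀ ≤ x.2 → ‖∑ n ∈ Icc 1 (N / max x.1 x.2), a (x.1 * n) * conj (a (x.2 * n))‖ ≤
        η ^ 2 / 4096 * (N / max x.1 x.2 : ℕ) := by
    rw [eventually_all_finset]
    intro x hx
    rw [Finset.mem_product, Finset.mem_range, Finset.mem_range] at hx
    by_cases hc : x.1.Prime ∧ x.2.Prime ∧ x.1 ≠ x.2 ∧ P₀ ≤ x.1 ∧ P₀ ≤ x.2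
    · obtain ⟨c1, c2, c3, c4, c5⟩ := hc
      filter_upwards [h x.1 x.2 c1 c2 c3 c4 c5 (by omega) (by omega)] with N hN _ _ _ _ _
      exact hN
    · exact Eventually.of_forall fun N c1 c2 c3 c4 c5 => absurd ⟨c1, c2, c3, c4, c5⟩ hc
  have hge : ∀ᶠ N : ℕ in L, N₀ ≤ N := hL (eventually_ge_atTop N₀)
  filter_upwards [hall, hge] with N hN hNN
  by_contra hcon
  have hlarge : η * N ≤ ‖MS a N‖ := (not_le.1 hcon).le
  obtain ⟨i, hiR, hblk⟩ := hN₀ a N ha hNN hlarge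
  obtain ⟨hIi, hiK, hrich⟩ := hmem i hiR
  have hres := block_at η i a N hη (by omega) hblk
    (fun p p' => if p = p' then 1 else η ^ 2 / 4096) (by
    intro p hp p' hp'
    obtain ⟨hp1, hp2, hp3⟩ := hpb i hiR p hp
    obtain ⟨hp1', hp2', hp3'⟩ := hpb i hiR p' hp'
    by_cases hpp : p = p'
    · subst hpp
      simp only [if_true]
      refine ⟨zero_le_one, ?_⟩
      calc ‖∑ y ∈ Icc 1 (min (N / p) (N / p)), a (p * y) * conj (a (p * y))‖
          ≤ ∑ y ∈ Icc 1 (min (N / p) (N / p)), (1 : ℝ) := by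
            refine (norm_sum_le _ _).trans (Finset.sum_le_sum fun y _ => ?_)
            rw [norm_mul, RCLike.norm_conj]
            nlinarith [ha (p * y), norm_nonneg (a (p * y))]
        _ = 1 * (min (N / p) (N / p) : ℕ) := by simp
    · simp only [if_neg hpp]
      refine ⟨by positivity, ?_⟩
      rw [div_max hp1.one_lt.le hp1'.one_lt.le]
      exact hN (p, p') (Finset.mem_product.2 ⟨Finset.mem_range.2 (by omega),
        Finset.mem_range.2 (by omega)⟩) hp1 hp1' hpp hp2 hp2')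
  obtain ⟨b, hb⟩ : ∃ b : ℝ, b = ((PB 1 i).card : ℝ) := ⟨_, rfl⟩
  have hsum : ∑ p ∈ PB 1 i, ∑ p' ∈ PB 1 i, (if p = p' then 1 else η ^ 2 / 4096 : ℝ) ≤
      b + η ^ 2 / 4096 * b ^ 2 := by
    calc ∑ p ∈ PB 1 i, ∑ p' ∈ PB 1 i, (if p = p' then 1 else η ^ 2 / 4096 : ℝ)
        ≤ ∑ p ∈ PB 1 i, ∑ p' ∈ PB 1 i, ((if p = p' then 1 else 0 : ℝ) + η ^ 2 / 4096) := by
          refine Finset.sum_le_sum fun p _ => Finset.sum_le_sum fun p' _ => ?_
          have : 0 ≤ η ^ 2 / 4096 := by positivity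
          by_cases hpp : p = p'
          · simp only [hpp, if_true]; linarith
          · simp only [if_neg hpp]; linarith
      _ = b + η ^ 2 / 4096 * b ^ 2 := by
          simp only [Finset.sum_add_distrib, Finset.sum_ite_eq, Finset.sum_const, nsmul_eq_mul]
          rw [Finset.sum_congr rfl (fun p hp => if_pos hp)]
          simp only [Finset.sum_const, nsmul_eq_mul, mul_one, ← hb]
          ring
  have hres2 : (η / 8) ^ 2 * b ^ 2 ≤ b + η ^ 2 / 4096 * b ^ 2 := by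
    rw [hb]
    rw [hb] at hsum
    exact hres.trans hsum
  have hi4 : 4 ≤ i := by omega
  have hbi : (i : ℝ) ≤ 4 * b := by
    have h1 : i * i ≤ 4 * i * (PB 1 i).card :=
      (Pool.Agent.Helper92.ZA.sq_le_two_pow i hi4).trans hrich
    have h2 : i ≤ 4 * (PB 1 i).card := by
      have : i * i ≤ i * (4 * (PB 1 i).card) := by
        calc i * i ≤ 4 * i * (PB 1 i).card := h1
          _ = i * (4 * (PB 1 i).card) := by ring
      exact Nat.le_of_mul_le_mul_left this (by omega)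
    rw [hb]
    exact_mod_cast h2
  have hI3i : (I₃ : ℝ) ≤ i := by exact_mod_cast (by omega : I₃ ≤ i)
  have hblarge : 4096 / η ^ 2 < b := by linarith
  have hη2 : 0 < η ^ 2 := by positivity
  have h6 : 4096 < b * η ^ 2 := by
    rw [div_lt_iff₀ hη2] at hblarge
    exact hblarge
  have hb0 : 0 < b := by
    have : 0 < 4096 / η ^ 2 := by positivity
    linarith
  have h7 : (η / 8) ^ 2 * b ≤ 1 + η ^ 2 / 4096 * b := by
    have h8 : ((η / 8) ^ 2 * b) * b ≤ (1 + η ^ 2 / 4096 * b) * b := by nlinarith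
    exact le_of_mul_le_mul_right h8 hb0
  nlinarith

end Pool.Agent.Helper74.ZU
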