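import Pool.Agent.Helper40.ZU.Stmts3

/-!
Sheet ZU (MP_7a8f48_an), row SMO: strong orthogonality along moving orbits.
-/

open MeasureTheory Filter Topology Finset
open scoped ComplexConjugate

namespace Pool.Agent.Helper74.ZU

open Pool.Agent.Helper98.TW (SA BF Sys)
open Pool.Agent.Helper16.MD (MS)
open Pool.Agent.Helper40.ZU

/-- the four signs -/
noncomputable def sgn (c : Fin 4) : ℂ := Complex.I ^ (c : ℕ)

theorem norm_sgn (c : Fin 4) : ‖sgn c‖ = 1 := by
  unfold sgn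
  rw [norm_pow, Complex.norm_I, one_pow]

theorem exists_sgn (z : ℂ) : ∃ c : Fin 4, ‖z‖ ≤ 2 * (sgn c * z).re := by
  have h := Complex.norm_le_abs_re_add_abs_im z
  have h0 : (sgn 0 * z).re = z.re := by simp [sgn]
  have h1 : (sgn 1 * z).re = -z.im := by simp [sgn]
  have h2 : (sgn 2 * z).re = -z.re := by
    have : sgn 2 = -1 := by
      show Complex.I ^ ((2 : Fin 4) : ℕ) = -1
      exact Complex.I_sq
    rw [this]; simp
  have h3 : (sgn 3 * z).re = z.im := by
    have : sgn 3 = -Complex.I := by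
      show Complex.I ^ ((3 : Fin 4) : ℕ) = -Complex.I
      exact Complex.I_pow_three
    rw [this]; simp
  rcases le_total |z.re| |z.im| with hc | hc
  · rcases abs_cases z.im with ⟨e, _⟩ | ⟨e, _⟩
    · exact ⟨3, by rw [h3]; linarith⟩
    · exact ⟨1, by rw [h1]; linarith⟩
  · rcases abs_cases z.re with ⟨e, _⟩ | ⟨e, _⟩
    · exact ⟨0, by rw [h0]; linarith⟩
    · exact ⟨2, by rw [h2]; linarith⟩

/-- the number of the interval which contains `n` -/
noncomputable def kk (b : ℕ → ℕ) (n : ℕ) : ℕ := Nat.findGreatest (fun k => b k ≤ n) n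

theorem kk_le {b : ℕ → ℕ} (n : ℕ) (h : b 0 ≤ n) : b (kk b n) ≤ n :=
  Nat.findGreatest_spec (P := fun k => b k ≤ n) (Nat.zero_le n) h

theorem lt_kk {b : ℕ → ℕ} (hb : StrictMono b) (n : ℕ) : n < b (kk b n + 1) := by
  by_contra hcon
  rw [not_lt] at hcon
  have h1 : kk b n + 1 ≤ n := (hb.id_le _).trans hcon
  exact Nat.findGreatest_is_greatest (P := fun k => b k ≤ n) (Nat.lt_succ_self _) h1 hcon

theorem kk_eq {b : ℕ → ℕ} (hb : StrictMono b) {n k : ℕ} (h1 : b k ≤ n) (h2 : n < b (k + 1)) :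
    kk b n = k := by
  have h0 : b 0 ≤ n := (hb.monotone (Nat.zero_le k)).trans h1
  have a1 := kk_le n h0
  have a2 := lt_kk hb n
  have c1 : k < kk b n + 1 := hb.lt_iff_lt.1 (h1.trans_lt a2)
  have c2 : kk b n < k + 1 := hb.lt_iff_lt.1 (a1.trans_lt h2)
  omega

theorem sum_blocks {b : ℕ → ℕ} (hb : StrictMono b) (g : ℕ → ℂ) (K : ℕ) :
    ∑ k ∈ range K, ∑ n ∈ Ico (b k) (b (k + 1)), g n = ∑ n ∈ Ico (b 0) (b K), g n := by
  induction K with
  | zero => simp
  | succ K ih =>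
    rw [Finset.sum_range_succ, ih]
    exact Finset.sum_Ico_consecutive g (hb.monotone (Nat.zero_le K))
      (hb.monotone (Nat.le_succ K))

/-- the number of jumps is small -/
theorem few_jumps {b : ℕ → ℕ} (hb : StrictMono b)
    (hg : Tendsto (fun k => b (k + 1) - b k) atTop atTop) (E : ℕ → Prop)
    (hE : ∀ n, E n → n < b 0 ∨ (b 0 ≤ n ∧ n + 1 = b (kk b n + 1))) :
    Tendsto (fun N : ℕ => (Nat.card {n : ℕ // n < N ∧ E n} : ℝ) / (N : ℝ)) atTop (𝓝 0) := by
  rw [Metric.tendsto_atTop]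
  intro ε hε
  obtain ⟨L, hL⟩ := exists_nat_gt (2 / ε)
  have hL0 : 0 < L := by
    rcases Nat.eq_zero_or_pos L with h | h
    · rw [h] at hL
      have : 0 < 2 / ε := by positivity
      simp at hL
      linarith
    · exact h
  obtain ⟨k₀, hk₀⟩ := (hg.eventually (eventually_ge_atTop L)).exists_forall_of_atTop
  have hgrow : ∀ j, L * j ≤ b (k₀ + j) := by
    intro j
    induction j with
    | zero => simp
    | succ j ih =>
      have h1 := hk₀ (k₀ + j) (by omega)
      have h2 : b (k₀ + j) ≤ b (k₀ + j + 1) := hb.monotone (Nat.le_succ _)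
      have : L * (j + 1) = L * j + L := by ring
      have e : k₀ + (j + 1) = k₀ + j + 1 := by ring
      rw [e]
      omega
  have hcard : ∀ N : ℕ, Nat.card {n : ℕ // n < N ∧ E n} ≤ b 0 + (k₀ + N / L + 1) := by
    intro N
    obtain ⟨Q, hQ⟩ : ∃ Q : ℕ, Q = N / L := ⟨_, rfl⟩
    rw [← hQ]
    have hsub : {n : ℕ | n < N ∧ E n} ⊆
        ((range (b 0) ∪ (range (k₀ + Q + 1)).image (fun k => b (k + 1) - 1) : Finset ℕ) :
          Set ℕ) := by
      rintro n ⟨hn, hEn⟩
      rw [Finset.coe_union, Set.mem_union, Finset.mem_coe, Finset.mem_coe, Finset.mem_range,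
        Finset.mem_image]
      rcases hE n hEn with h | ⟨h0, h⟩
      · exact Or.inl h
      · refine Or.inr ⟨kk b n, ?_, by omega⟩
        rw [Finset.mem_range]
        have a1 := kk_le n h0
        by_contra hcon
        rw [not_lt] at hcon
        obtain ⟨j, hj⟩ : ∃ j, kk b n = k₀ + j := ⟨kk b n - k₀, by omega⟩
        have a2 := hgrow j
        rw [← hj] at a2
        have a3 : Q + 1 ≤ j := by omega
        have a4 : N < L * j := by
          calc N < L * (N / L + 1) := Nat.lt_mul_div_succ N hL0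
            _ = L * (Q + 1) := by rw [hQ]
            _ ≤ L * j := Nat.mul_le_mul_left L a3
        omega
    have h1 : Nat.card {n : ℕ // n < N ∧ E n} = Set.ncard {n : ℕ | n < N ∧ E n} :=
      Nat.card_coe_set_eq _
    rw [h1]
    refine (Set.ncard_le_ncard hsub (Finset.finite_toSet _)).trans ?_
    rw [Set.ncard_coe_finset]
    refine (Finset.card_union_le _ _).trans ?_
    have h2 := Finset.card_image_le (s := range (k₀ + Q + 1)) (f := fun k => b (k + 1) - 1)
    rw [Finset.card_range] at h2 ⊢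
    omega
  obtain ⟨N₁, hN₁⟩ := exists_nat_gt ((2 * (b 0 + k₀ + 1 : ℕ) : ℝ) / ε)
  refine ⟨N₁ + 1, fun N hN => ?_⟩
  have hNpos : (0 : ℝ) < N := by exact_mod_cast (by omega : 0 < N)
  have hLpos : (0 : ℝ) < L := by exact_mod_cast hL0
  rw [Real.dist_eq, sub_zero, abs_of_nonneg (by positivity), div_lt_iff₀ hNpos]
  have h1 : (Nat.card {n : ℕ // n < N ∧ E n} : ℝ) ≤ (b 0 + (k₀ + N / L + 1) : ℕ) := by
    exact_mod_cast hcard N
  have h2 : ((N / L : ℕ) : ℝ) ≤ N / L := Nat.cast_div_le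
  have h3 : (N : ℝ) / L < ε / 2 * N := by
    rw [div_lt_iff₀ hLpos]
    have h4 : 2 < L * ε := by
      rw [div_lt_iff₀ hε] at hL
      linarith
    nlinarith
  have h5 : ((b 0 + k₀ + 1 : ℕ) : ℝ) < ε / 2 * N := by
    rw [div_lt_iff₀ hε] at hN₁
    have h6 : (N₁ : ℝ) ≤ N := by exact_mod_cast (by omega : N₁ ≤ N)
    nlinarith
  push_cast at h1 h5
  linarith

theorem st_SMO (hSSQ : ST_SSQ) (hSFI : ST_SFI) : ST_SMO := by
  classical
  intro X _ _ _ _ T F hT hGa b x hb hg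
  let _ : MetricSpace (X × Fin 4) := TopologicalSpace.metrizableSpaceMetric (X × Fin 4)
  -- the signs
  obtain ⟨z, hz⟩ : ∃ z : ℕ → ℂ, ∀ k, z k = ∑ n ∈ Ico (b k) (b (k + 1)),
      ((ArithmeticFunction.moebius n : ℤ) : ℂ) * F (T^[n - b k] (x k)) := ⟨_, fun _ => rfl⟩
  choose c hc using fun k => exists_sgn (z k)
  obtain ⟨R, hR⟩ : ∃ R : X × Fin 4 → X × Fin 4, R = fun y => (T y.1, y.2) := ⟨_, rfl⟩
  have hRc : Continuous R := by
    rw [hR]
    exact (hT.comp continuous_fst).prodMk continuous_snd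
  have hRGa : Ga R := by
    rw [hR]
    exact hSFI X T hT.measurable hGa
  have hFc : Continuous (fun y : X × Fin 4 => F y.1 * sgn y.2) := by
    refine (F.continuous.comp continuous_fst).mul ?_
    exact (continuous_of_discreteTopology (f := sgn)).comp continuous_snd
  obtain ⟨w, hw⟩ : ∃ w : ℕ → X × Fin 4, ∀ n, w n = if b 0 ≤ n then
      (T^[n - b (kk b n)] (x (kk b n)), c (kk b n)) else (x 0, 0) := ⟨_, fun _ => rfl⟩
  have hjump : ∀ n, w (n + 1) ≠ R (w n) →
      n < b 0 ∨ (b 0 ≤ n ∧ n + 1 = b (kk b n + 1)) := by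
    intro n hn
    rcases lt_or_ge n (b 0) with h | h
    · exact Or.inl h
    · refine Or.inr ⟨h, ?_⟩
      by_contra hcon
      apply hn
      have a1 := kk_le n h
      have a2 := lt_kk hb n
      have e1 : kk b (n + 1) = kk b n := kk_eq hb (by omega) (by omega)
      rw [hw, hw, if_pos h, if_pos (by omega), e1, hR]
      have e2 : n + 1 - b (kk b n) = (n - b (kk b n)) + 1 := by omega
      rw [e2, Function.iterate_succ_apply']
  have hdens := few_jumps hb hg (fun n => w (n + 1) ≠ R (w n)) hjump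
  have hmain := hSSQ (X × Fin 4) R w ⟨_, hFc⟩ hRc hRGa hdens
  obtain ⟨f, hf⟩ : ∃ f : ℕ → ℂ, ∀ n, f n = F (w n).1 * sgn (w n).2 := ⟨_, fun _ => rfl⟩
  have hmain' : Tendsto (fun N : ℕ => MS f N / (N : ℂ)) atTop (𝓝 0) := by
    have : f = fun n => (⟨_, hFc⟩ : C(X × Fin 4, ℂ)) (w n) := by
      funext n
      rw [hf]
      rfl
    rw [this]
    exact hmain
  -- the sums over the blocks
  obtain ⟨g, hgd⟩ : ∃ g : ℕ → ℂ, ∀ n, g n = ((ArithmeticFunction.moebius n : ℤ) : ℂ) * f n :=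
    ⟨_, fun _ => rfl⟩
  have hblock : ∀ k, sgn (c k) * z k = ∑ n ∈ Ico (b k) (b (k + 1)), g n := by
    intro k
    rw [hz, Finset.mul_sum]
    refine Finset.sum_congr rfl fun n hn => ?_
    rw [Finset.mem_Ico] at hn
    have e1 : kk b n = k := kk_eq hb hn.1 hn.2
    rw [hgd, hf, hw, if_pos ((hb.monotone (Nat.zero_le k)).trans hn.1), e1]
    ring
  obtain ⟨C, hC0, hC⟩ : ∃ C : ℝ, 0 ≤ C ∧ ∀ n, ‖g n‖ ≤ C := by
    refine ⟨‖F‖, norm_nonneg _, fun n => ?_⟩
    rw [hgd, hf, norm_mul, norm_mul, norm_sgn, mul_one]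
    have h1 : ‖((ArithmeticFunction.moebius n : ℤ) : ℂ)‖ ≤ 1 := by
      rw [Complex.norm_intCast]
      exact_mod_cast ArithmeticFunction.abs_moebius_le_one
    have h2 : ‖F (w n).1‖ ≤ ‖F‖ := F.norm_coe_le_norm _
    calc ‖((ArithmeticFunction.moebius n : ℤ) : ℂ)‖ * ‖F (w n).1‖ ≤ 1 * ‖F‖ :=
          mul_le_mul h1 h2 (norm_nonneg _) zero_le_one
      _ = ‖F‖ := one_mul _
  have hMS : ∀ K : ℕ, MS f (b K) = ∑ n ∈ range (b 0), g n + ∑ n ∈ Ico (b 0) (b K), g n +
      g (b K) := by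
    intro K
    have e1 : MS f (b K) = ∑ n ∈ range (b K + 1), g n := by
      unfold MS
      rw [Finset.sum_congr rfl (fun n _ => (hgd n).symm)]
      rw [Finset.range_eq_Ico, Finset.sum_eq_sum_Ico_succ_bot (Nat.succ_pos _)]
      have h0 : g 0 = 0 := by rw [hgd]; simp
      rw [h0, zero_add]
      rfl
    rw [e1, Finset.sum_range_succ, Finset.sum_range_add_sum_Ico _ (hb.monotone (Nat.zero_le K))]
  have hbK : Tendsto (fun K => b K) atTop atTop := hb.tendsto_atTop
  have hlim : Tendsto (fun K : ℕ => 2 * (‖MS f (b K) / ((b K : ℕ) : ℂ)‖ +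
      (b 0 * C + C) / (b K : ℝ))) atTop (𝓝 0) := by
    have h1 : Tendsto (fun K : ℕ => ‖MS f (b K) / ((b K : ℕ) : ℂ)‖) atTop (𝓝 0) := by
      have := (hmain'.comp hbK).norm
      simpa using this
    have h2 : Tendsto (fun K : ℕ => (b 0 * C + C) / (b K : ℝ)) atTop (𝓝 0) :=
      tendsto_const_nhds.div_atTop (tendsto_natCast_atTop_atTop.comp hbK)
    have := (h1.add h2).const_mul 2
    simpa using this
  refine squeeze_zero' (Eventually.of_forall fun K => by positivity) ?_ hlim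
  filter_upwards [eventually_ge_atTop 1] with K hK
  have hbpos : (0 : ℝ) < b K := by
    have : 0 < b K := lt_of_le_of_lt (Nat.zero_le _) (hb (by omega : 0 < K))
    exact_mod_cast this
  rw [div_le_iff₀ hbpos]
  have h1 : ∑ k ∈ range K, ‖z k‖ ≤ 2 * (∑ n ∈ Ico (b 0) (b K), g n).re := by
    rw [← sum_blocks hb g K]
    calc ∑ k ∈ range K, ‖z k‖ ≤ ∑ k ∈ range K, 2 * (sgn (c k) * z k).re :=
          Finset.sum_le_sum fun k _ => hc k
      _ = 2 * (∑ k ∈ range K, ∑ n ∈ Ico (b k) (b (k + 1)), g n).re := by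
          rw [← Finset.mul_sum, Complex.re_sum]
          congr 1
          exact Finset.sum_congr rfl fun k _ => by rw [hblock]
  have h2 : (∑ n ∈ Ico (b 0) (b K), g n).re ≤ ‖MS f (b K)‖ + (b 0 * C + C) := by
    refine (Complex.re_le_norm _).trans ?_
    have e : ∑ n ∈ Ico (b 0) (b K), g n = MS f (b K) - ∑ n ∈ range (b 0), g n - g (b K) := by
      rw [hMS K]; ring
    rw [e]
    have h3 : ‖∑ n ∈ range (b 0), g n‖ ≤ b 0 * C := by
      refine (norm_sum_le _ _).trans ?_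
      calc ∑ n ∈ range (b 0), ‖g n‖ ≤ ∑ n ∈ range (b 0), C := Finset.sum_le_sum fun n _ => hC n
        _ = b 0 * C := by simp
    have h4 := hC (b K)
    calc ‖MS f (b K) - ∑ n ∈ range (b 0), g n - g (b K)‖
        ≤ ‖MS f (b K) - ∑ n ∈ range (b 0), g n‖ + ‖g (b K)‖ := norm_sub_le _ _
      _ ≤ (‖MS f (b K)‖ + ‖∑ n ∈ range (b 0), g n‖) + ‖g (b K)‖ := by
          gcongr
          exact norm_sub_le _ _
      _ ≤ _ := by linarith
  have h5 : ‖MS f (b K) / ((b K : ℕ) : ℂ)‖ * b K = ‖MS f (b K)‖ := by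
    rw [norm_div, Complex.norm_natCast]
    field_simp
  have h6 : (b 0 * C + C) / (b K : ℝ) * b K = b 0 * C + C := by field_simp
  have h7 : ∑ k ∈ range K, ‖∑ n ∈ Ico (b k) (b (k + 1)),
      ((ArithmeticFunction.moebius n : ℤ) : ℂ) * F (T^[n - b k] (x k))‖ =
      ∑ k ∈ range K, ‖z k‖ := Finset.sum_congr rfl fun k _ => by rw [hz]
  rw [h7]
  calc ∑ k ∈ range K, ‖z k‖ ≤ 2 * (‖MS f (b K)‖ + (b 0 * C + C)) := by linarith
    _ = 2 * (‖MS f (b K) / ((b K : ℕ) : ℂ)‖ + (b 0 * C + C) / (b K : ℝ)) * b K := by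
        rw [← h5, ← h6]
        field_simp

end Pool.Agent.Helper74.ZU
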